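import Pool.Agent.H15.EE.Trans
import Pool.Agent.H36.EK.Proper

/-!
# Iso : the Čech model and the matrix model of the dg algebra of the curve

MP_eadf0f_ag, block E. `CechE C A`: the elements of the dg algebra `A` are the Čech matrices of sections of
`O(j - i)`, with the Čech differential and the cup product. `CechE.iso : DIso A C.AE.toDGA`, hence
`CechE.PF_AE : PF A diag → PF C.AE.toDGA diag`.
-/

set_option autoImplicit false

open NC

noncomputable section

namespace EK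

open H36.NX

variable {q : ℕ} {k : Type} [Field k] {R : Type} [CommRing R] [Algebra k R]

/-- a dg algebra whose elements are the Čech matrices of sections -/
structure CechE (C : CurR q k R) (A : DGA k) where
  v : A.V →ₗ[k] (Pc → Matrix (Fin 2) (Fin 2) R)
  inj : Function.Injective v
  mem : ∀ f s i j, v f s i j ∈ C.pc s (wt j - wt i)
  surj : ∀ g : Pc → Matrix (Fin 2) (Fin 2) R, (∀ s i j, g s i j ∈ C.pc s (wt j - wt i)) →
    ∃ f, v f = g
  D_X : ∀ f, v (A.D f) Pc.X = 0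
  D_Y : ∀ f, v (A.D f) Pc.Y = 0
  D_R : ∀ f, v (A.D f) Pc.R = v f Pc.Y - v f Pc.X
  P_X : ∀ f, v (A.P f) Pc.X = v f Pc.X
  P_Y : ∀ f, v (A.P f) Pc.Y = v f Pc.Y
  P_R : ∀ f, v (A.P f) Pc.R = 0
  mul_X : ∀ f g, v (A.mul f g) Pc.X = v f Pc.X * v g Pc.X
  mul_Y : ∀ f g, v (A.mul f g) Pc.Y = v f Pc.Y * v g Pc.Y
  mul_R : ∀ f g, v (A.mul f g) Pc.R = v f Pc.X * v g Pc.R + v f Pc.R * v g Pc.Y
  one_X : v A.one Pc.X = 1
  one_Y : v A.one Pc.Y = 1
  one_R : v A.one Pc.R = 0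

namespace CechE

open CurR

theorem blk_add (a b c a' b' c' : Matrix (Fin 2) (Fin 2) R) :
    blk (a + a') (b + b') (c + c') = blk a b c + blk a' b' c' := by
  ext ⟨i1, i2⟩ ⟨j1, j2⟩
  fin_cases i1 <;> fin_cases j1
  · rfl
  · rfl
  · exact (add_zero (0 : R)).symm
  · rfl

theorem blk_smul (x : k) (a b c : Matrix (Fin 2) (Fin 2) R) :
    blk (x • a) (x • b) (x • c) = x • blk a b c := by
  ext ⟨i1, i2⟩ ⟨j1, j2⟩
  fin_cases i1 <;> fin_cases j1
  · rfl
  · rfl
  · exact (smul_zero x : x • (0 : R) = 0).symm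
  · rfl

theorem blk_mul (a b c a' b' c' : Matrix (Fin 2) (Fin 2) R) :
    blk a b c * blk a' b' c' = blk (a * a') (b * b') (a * c' + c * b') := by
  ext ⟨i1, i2⟩ ⟨j1, j2⟩
  rw [Matrix.mul_apply, Fintype.sum_prod_type]
  simp only [Fin.sum_univ_two]
  fin_cases i1 <;> fin_cases j1 <;> simp [blk, Matrix.mul_apply, Fin.sum_univ_two]

theorem blk_one : blk (1 : Matrix (Fin 2) (Fin 2) R) 1 0 = 1 := by
  ext ⟨i1, i2⟩ ⟨j1, j2⟩
  fin_cases i1 <;> fin_cases j1 <;> simp [blk, Matrix.one_apply]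

theorem pM_blk (C : CurR q k R) (a b c : Matrix (Fin 2) (Fin 2) R) :
    C.datE.pM (blk a b c) = blk a b 0 := by
  have hdeg : ∀ i, C.datE.deg i = ((i.1 : ℕ) : ℤ) := fun _ => rfl
  ext ⟨i1, i2⟩ ⟨j1, j2⟩
  rw [MatDat.pM_apply, hdeg, hdeg]
  fin_cases i1 <;> fin_cases j1 <;> simp [blk]

theorem blk_inj {a b c a' b' c' : Matrix (Fin 2) (Fin 2) R} (h : blk a b c = blk a' b' c') :
    a = a' ∧ b = b' ∧ c = c' := by
  refine ⟨?_, ?_, ?_⟩
  · ext i j
    exact congrFun (congrFun h (0, i)) (0, j)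
  · ext i j
    exact congrFun (congrFun h (1, i)) (1, j)
  · ext i j
    exact congrFun (congrFun h (0, i)) (1, j)

variable {C : CurR q k R} {A : DGA k} (H : CechE C A)

/-- the matrix of a Čech matrix -/
def toM : A.V →ₗ[k] C.AE.V where
  toFun f := EK.mk C.datE (blk (H.v f Pc.X) (H.v f Pc.Y) (H.v f Pc.R))
    (C.blk_mem (fun g h => H.mem f Pc.X g h) (fun g h => H.mem f Pc.Y g h))
  map_add' f g := m_ext C.datE (by
    change blk (H.v (f + g) Pc.X) (H.v (f + g) Pc.Y) (H.v (f + g) Pc.R) =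
      blk (H.v f Pc.X) (H.v f Pc.Y) (H.v f Pc.R) + blk (H.v g Pc.X) (H.v g Pc.Y) (H.v g Pc.R)
    rw [map_add]
    exact blk_add _ _ _ _ _ _)
  map_smul' x f := m_ext C.datE (by
    change blk (H.v (x • f) Pc.X) (H.v (x • f) Pc.Y) (H.v (x • f) Pc.R) =
      x • blk (H.v f Pc.X) (H.v f Pc.Y) (H.v f Pc.R)
    rw [map_smul]
    exact blk_smul x _ _ _)

theorem mv_toM (f : A.V) : mv C.datE (H.toM f) = blk (H.v f Pc.X) (H.v f Pc.Y) (H.v f Pc.R) := rfl

theorem toM_inj : Function.Injective H.toM := by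
  intro f g h
  have h1 : blk (H.v f Pc.X) (H.v f Pc.Y) (H.v f Pc.R) =
      blk (H.v g Pc.X) (H.v g Pc.Y) (H.v g Pc.R) := by
    rw [← mv_toM, ← mv_toM, h]
  obtain ⟨hX, hY, hR⟩ := blk_inj h1
  refine H.inj ?_
  funext s
  cases s
  · exact hX
  · exact hY
  · exact hR

theorem toM_surj : Function.Surjective H.toM := by
  intro x
  obtain ⟨a, b, c, ha, hb, e⟩ := C.exists_blk x
  obtain ⟨f, hf⟩ := H.surj (fun s => match s with
    | Pc.X => a
    | Pc.Y => b
    | Pc.R => c) (fun s i j => by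
      cases s
      · exact ha i j
      · exact hb i j
      · trivial)
  refine ⟨f, m_ext C.datE ?_⟩
  rw [mv_toM, e, hf]

/-- **the isomorphism** of the Čech model with the matrix model -/
def iso : DIso A C.AE.toDGA where
  f := H.toM
  D f := m_ext C.datE (by
    rw [mv_toM, H.D_X, H.D_Y, H.D_R]
    exact ((C.dM_blk (H.v f Pc.X) (H.v f Pc.Y) (H.v f Pc.R))).symm)
  P f := m_ext C.datE (by
    rw [mv_toM, H.P_X, H.P_Y, H.P_R]
    exact ((pM_blk C (H.v f Pc.X) (H.v f Pc.Y) (H.v f Pc.R))).symm)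
  mul f g := m_ext C.datE (by
    rw [mv_toM]
    change blk (H.v (A.mul f g) Pc.X) (H.v (A.mul f g) Pc.Y) (H.v (A.mul f g) Pc.R) = _
    rw [H.mul_X, H.mul_Y, H.mul_R]
    exact (blk_mul _ _ _ _ _ _).symm)
  one := m_ext C.datE (by
    rw [mv_toM]
    change blk (H.v A.one Pc.X) (H.v A.one Pc.Y) (H.v A.one Pc.R) = _
    rw [H.one_X, H.one_Y, H.one_R]
    exact blk_one)
  bij := ⟨H.toM_inj, H.toM_surj⟩

include H in
/-- perfectness of the diagonal bimodule goes from the Čech model to the matrix model -/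
theorem PF_AE (h : PF A (BMod.diag A)) : PF C.AE.toDGA (BMod.diag C.AE.toDGA) :=
  PF.diag_of_DIso H.iso.symm h

end CechE

end EK
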