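import Pool.Agent.H16.NC.PF
import Pool.Agent.H36.NX.Push

/-!
# Trans : perfect bimodules are transported along a bijective unital morphism of dg algebras

MP_eadf0f_ag, block E. `DIso A B` is a bijective morphism of dg algebras which preserves the units.
`PF.resI : PF B X → PF A (X.resI φ)` and `PF.diag_of_DIso : PF B diag → PF A diag`.
-/

set_option autoImplicit false

open scoped TensorProduct

noncomputable section

namespace NC

variable {k : Type} [Field k]

/-- a bijective unital morphism of dg algebras -/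
structure DIso (A B : DGA k) extends DGA.NHom A B where
  one : f 1 = 1
  bij : Function.Bijective f

namespace DIso

variable {A B : DGA k} (φ : DIso A B)

/-- the linear equivalence -/
def eqv : A.V ≃ₗ[k] B.V := LinearEquiv.ofBijective φ.f φ.bij

theorem eqv_apply (a : A.V) : φ.eqv a = φ.f a := rfl

theorem eqv_symm (b : B.V) : φ.f (φ.eqv.symm b) = b := φ.eqv.apply_symm_apply b

theorem symm_eqv (a : A.V) : φ.eqv.symm (φ.f a) = a := φ.eqv.symm_apply_apply a

/-- the inverse -/
def symm : DIso B A where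
  f := φ.eqv.symm.toLinearMap
  D := fun v => φ.bij.1 (by
    rw [φ.D]
    change φ.f (φ.eqv.symm (B.D v)) = B.D (φ.f (φ.eqv.symm v))
    rw [φ.eqv_symm, φ.eqv_symm])
  P := fun v => φ.bij.1 (by
    rw [φ.P]
    change φ.f (φ.eqv.symm (B.P v)) = B.P (φ.f (φ.eqv.symm v))
    rw [φ.eqv_symm, φ.eqv_symm])
  mul := fun a b => φ.bij.1 (by
    rw [φ.mul]
    change φ.f (φ.eqv.symm (a * b)) = φ.f (φ.eqv.symm a) * φ.f (φ.eqv.symm b)
    rw [φ.eqv_symm, φ.eqv_symm, φ.eqv_symm])
  one := φ.bij.1 (by
    rw [φ.one]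
    exact φ.eqv_symm 1)
  bij := φ.eqv.symm.bijective

end DIso

variable {A B : DGA k}

/-- restriction of a unital bimodule along a unital morphism -/
def BMod.resI (φ : DIso A B) (X : BMod B B) : BMod A A where
  N := X.N
  b := X.b.res φ.toNHom φ.toNHom
  one_l := fun y => by
    change X.b.l.act (φ.f 1) y = y
    rw [φ.one, X.one_l]
  r_one := fun y => by
    change X.b.r.act y (φ.f 1) = y
    rw [φ.one, X.r_one]

/-- restriction of a morphism -/
def BMod.Hom.resI (φ : DIso A B) {X Y : BMod B B} (f : BMod.Hom X Y) :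
    BMod.Hom (X.resI φ) (Y.resI φ) where
  toHom := f.toHom
  isHom := ⟨fun a x => f.isHom.l (φ.f a) x, fun x a => f.isHom.r x (φ.f a)⟩

/-- the morphism from the free bimodule over `A` to the restriction of the free bimodule over `B` -/
def freeResI (φ : DIso A B) : BMod.Hom (BMod.free A A) ((BMod.free B B).resI φ) where
  toHom := φ.toHom.tens φ.toHom
  isHom := ⟨fun a v => by
    refine tens_ext (f := TensorProduct.map φ.f φ.f ∘ₗ (A.diag.l.tensL A.toSD).act a)
      (g := (B.diag.l.tensL B.toSD).act (φ.f a) ∘ₗ TensorProduct.map φ.f φ.f) (fun x y => ?_) v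
    change φ.f (a * x) ⊗ₜ[k] φ.f y = (φ.f a * φ.f x) ⊗ₜ[k] φ.f y
    rw [φ.mul],
   fun v a => by
    refine tens_ext (f := TensorProduct.map φ.f φ.f ∘ₗ (A.diag.r.tensR A.toSD).act.flip a)
      (g := (B.diag.r.tensR B.toSD).act.flip (φ.f a) ∘ₗ TensorProduct.map φ.f φ.f)
      (fun x y => ?_) v
    change φ.f x ⊗ₜ[k] φ.f (y * a) = φ.f x ⊗ₜ[k] (φ.f y * φ.f a)
    rw [φ.mul]⟩

theorem freeResI_bij (φ : DIso A B) : Function.Bijective (freeResI φ).f :=
  (TensorProduct.congr φ.eqv φ.eqv).bijective

/-- restriction commutes with the parity shift -/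
def shResI (φ : DIso A B) (X : BMod B B) : BMod.Hom (X.resI φ).sh ((X.sh).resI φ) where
  toHom := SD.Hom.id X.N.sh
  isHom := ⟨fun a v => by
    change X.b.l.act (φ.f (A.E a)) v = X.b.l.act (B.E (φ.f a)) v
    rw [φ.toHom.E], fun _ _ => rfl⟩

/-- the restriction of a perfect bimodule is perfect -/
theorem PF.resI (φ : DIso A B) {X : BMod B B} (h : PF B X) : PF A (X.resI φ) := by
  induction h with
  | free => exact PF.qi (freeResI φ) (QI_of_bijective _ (freeResI_bij φ)) PF.free
  | @sh X _ ih => exact PF.qi (shResI φ X) (QI_of_bijective _ Function.bijective_id) ih.sh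
  | qi f hf _ ih => exact PF.qi (f.resI φ) hf ih
  | qi' f hf _ ih => exact PF.qi' (f.resI φ) hf ih
  | ses1 f g h _ _ ih ih' => exact PF.ses1 (f.resI φ) (g.resI φ) h ih ih'
  | ses2 f g h _ _ ih ih' => exact PF.ses2 (f.resI φ) (g.resI φ) h ih ih'
  | ses3 f g h _ _ ih ih' => exact PF.ses3 (f.resI φ) (g.resI φ) h ih ih'
  | retr H _ ih =>
    exact PF.retr { s := H.s.resI φ
                    r := H.r.resI φ
                    h := H.h
                    hl := fun a x => (H.hl (φ.f a) x).trans (by
                      rw [← φ.toHom.E]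
                      rfl)
                    hr := fun x a => H.hr x (φ.f a)
                    eq := H.eq } ih

/-- the diagonal bimodule -/
def diagResI (φ : DIso A B) : BMod.Hom (BMod.diag A) ((BMod.diag B).resI φ) where
  toHom := φ.toHom
  isHom := ⟨fun a x => φ.mul a x, fun x a => φ.mul x a⟩

/-- **transport**: the diagonal bimodule of `A` is perfect if the one of `B` is -/
theorem PF.diag_of_DIso (φ : DIso A B) (h : PF B (BMod.diag B)) : PF A (BMod.diag A) :=
  PF.qi' (diagResI φ) (QI_of_bijective _ φ.bij) (h.resI φ)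

end NC
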