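import Mathlib
import Pool.Agent.H82.EE.Sep

/-!
# XR : the ring of functions on the affine chart and its quotients by the ramification divisor

MP_eadf0f_ag, block E. `S = k[u, w] / (w^2 - Q w - 1)`, `Q = u^q - u`. For odd `p` the quotient by `2 w - Q` is
separable; for `p = 2` the quotient `T0` by `(Q, w - 1)` is separable, it is a direct factor of the quotient by
`s2 = (w - 1) + Q u`, and the quotient by `2 w - Q` is an extension of `T0` by `T0`.
-/

set_option autoImplicit false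

open scoped TensorProduct

noncomputable section

namespace H82.EE

variable {k : Type} [Field k]

/-- the ring of functions on the chart: generators `u`, `w`, `w^2 = (u^q - u) w + 1` -/
structure XR (k : Type) [Field k] (q : ℕ) (S : Type) [CommRing S] [Algebra k S] where
  u : S
  w : S
  rel : w ^ 2 = (u ^ q - u) * w + 1
  gen : ∀ x : S, x ∈ Algebra.adjoin k ({u, w} : Set S)
  inj : ∀ z : S, (2 * w - (u ^ q - u)) * z = 0 → z = 0

/-! ### separability elements -/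

section

variable {T : Type} [CommRing T] [Algebra k T]

/-- the elements which commute with `e` -/
def cS (e : T ⊗[k] T) : Subalgebra k T where
  carrier := {x | (x ⊗ₜ[k] 1) * e = (1 ⊗ₜ[k] x) * e}
  mul_mem' := by
    intro x y hx hy
    have hx' : (x ⊗ₜ[k] 1) * e = (1 ⊗ₜ[k] x) * e := hx
    have hy' : (y ⊗ₜ[k] 1) * e = (1 ⊗ₜ[k] y) * e := hy
    change ((x * y) ⊗ₜ[k] 1) * e = (1 ⊗ₜ[k] (x * y)) * e
    have e1 : (x * y) ⊗ₜ[k] (1 : T) = (x ⊗ₜ[k] 1) * (y ⊗ₜ[k] 1) := by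
      rw [Algebra.TensorProduct.tmul_mul_tmul, one_mul]
    have e2 : (1 : T) ⊗ₜ[k] (x * y) = (1 ⊗ₜ[k] y) * (1 ⊗ₜ[k] x) := by
      rw [Algebra.TensorProduct.tmul_mul_tmul, one_mul, mul_comm y x]
    rw [e1, e2, mul_assoc, hy', mul_left_comm, hx', ← mul_assoc]
  add_mem' := by
    intro x y hx hy
    have hx' : (x ⊗ₜ[k] 1) * e = (1 ⊗ₜ[k] x) * e := hx
    have hy' : (y ⊗ₜ[k] 1) * e = (1 ⊗ₜ[k] y) * e := hy
    change ((x + y) ⊗ₜ[k] 1) * e = (1 ⊗ₜ[k] (x + y)) * e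
    rw [TensorProduct.add_tmul, TensorProduct.tmul_add, add_mul, add_mul, hx', hy']
  algebraMap_mem' := by
    intro c
    change ((algebraMap k T c) ⊗ₜ[k] 1) * e = (1 ⊗ₜ[k] (algebraMap k T c)) * e
    rw [Algebra.TensorProduct.tmul_one_eq_one_tmul]

theorem mem_cS (e : T ⊗[k] T) (x : T) :
    x ∈ cS e ↔ (x ⊗ₜ[k] 1) * e = (1 ⊗ₜ[k] x) * e := Iff.rfl

theorem mem_cS_of (e : T ⊗[k] T) (x : T) (h : (x ⊗ₜ[k] 1 - 1 ⊗ₜ[k] x) * e = 0) : x ∈ cS e := by
  rw [mem_cS]
  rw [sub_mul] at h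
  exact sub_eq_zero.1 h

/-- powers of differences in characteristic `p` -/
theorem sub_pow_q {p n q : ℕ} (hp : p.Prime) [CharP k p] (hq : q = p ^ n) {A : Type} [CommRing A]
    [Algebra k A] (x y : A) : (x - y) ^ q = x ^ q - y ^ q := by
  rcases subsingleton_or_nontrivial A with hA | hA
  · exact Subsingleton.elim _ _
  have : Fact p.Prime := ⟨hp⟩
  have : CharP A p := charP_of_injective_algebraMap (algebraMap k A).injective p
  rw [hq]
  exact sub_pow_char_pow x y n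

theorem z_pow {p n q : ℕ} (hp : p.Prime) [CharP k p] (hq : q = p ^ n) (u : T) :
    (u ⊗ₜ[k] (1 : T) - (1 : T) ⊗ₜ[k] u) ^ q =
      (u ⊗ₜ[k] (1 : T) - (1 : T) ⊗ₜ[k] u) + ((u ^ q - u) ⊗ₜ[k] (1 : T) - (1 : T) ⊗ₜ[k] (u ^ q - u)) := by
  rw [sub_pow_q (k := k) hp hq, Algebra.TensorProduct.tmul_pow, Algebra.TensorProduct.tmul_pow,
    one_pow, TensorProduct.sub_tmul, TensorProduct.tmul_sub]
  ring

theorem pow_q_mul {A : Type} [CommRing A] {q : ℕ} (hq : 2 ≤ q) (z : A) : z * z ^ (q - 1) = z ^ q := by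
  rw [← pow_succ']
  congr 1
  omega

end

namespace XR

variable {q : ℕ} {S : Type} [CommRing S] [Algebra k S] (E : XR k q S)

/-- `Q = u^q - u` -/
def Q : S := E.u ^ q - E.u

/-- the different `2 w - Q` -/
def de : S := 2 * E.w - E.Q

/-- the auxiliary element for `p = 2` -/
def s2 : S := (E.w - 1) + E.Q * E.u

theorem rel' : E.w ^ 2 = E.Q * E.w + 1 := E.rel

theorem inj' (z : S) (h : E.de * z = 0) : z = 0 := E.inj z h

/-- the quotients are generated by the classes of `u` and `w` -/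
theorem gen_quot (I : Ideal S) (x : S ⧸ I) :
    x ∈ Algebra.adjoin k ({Ideal.Quotient.mk I E.u, Ideal.Quotient.mk I E.w} : Set (S ⧸ I)) := by
  obtain ⟨s, rfl⟩ := Ideal.Quotient.mk_surjective x
  have h := E.gen s
  have h1 : Ideal.Quotient.mkₐ k I s ∈
      (Algebra.adjoin k ({E.u, E.w} : Set S)).map (Ideal.Quotient.mkₐ k I) :=
    Subalgebra.mem_map.2 ⟨s, h, rfl⟩
  rw [AlgHom.map_adjoin, Set.image_pair] at h1
  exact h1

variable {p n : ℕ}

theorem two_le (hp : p.Prime) (hn : q = p ^ n) (hn0 : n ≠ 0) : 2 ≤ q := by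
  rw [hn]
  calc 2 ≤ p := hp.two_le
    _ = p ^ 1 := (pow_one p).symm
    _ ≤ p ^ n := Nat.pow_le_pow_right hp.pos (Nat.one_le_iff_ne_zero.2 hn0)

/-- (1) **odd characteristic**: the ramification divisor is separable -/
theorem sep_odd (p : ℕ) [hp : Fact p.Prime] [CharP k p] (h2 : p ≠ 2) (n : ℕ) (hn : q = p ^ n)
    (hn0 : n ≠ 0) : Nonempty (MT.Sep k (S ⧸ Ideal.span {E.de})) := by
  have hq2 : 2 ≤ q := two_le hp.out hn hn0
  have h2k : (2 : k) ≠ 0 := by
    intro h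
    have h3 : ((2 : ℕ) : k) = 0 := by exact_mod_cast h
    rw [CharP.cast_eq_zero_iff k p] at h3
    have h4 := (Nat.prime_dvd_prime_iff_eq hp.out Nat.prime_two).1 h3
    exact h2 h4
  set I : Ideal S := Ideal.span {E.de} with hI
  set U : S ⧸ I := Ideal.Quotient.mk I E.u with hU
  set W : S ⧸ I := Ideal.Quotient.mk I E.w with hW
  set QQ : S ⧸ I := U ^ q - U with hQQ
  have hde : Ideal.Quotient.mk I E.de = 0 :=
    Ideal.Quotient.eq_zero_iff_mem.2 (Ideal.subset_span rfl)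
  have hQm : Ideal.Quotient.mk I E.Q = QQ := by
    rw [hQQ, hU]
    unfold Q
    rw [map_sub, map_pow]
  have hW2 : 2 * W = QQ := by
    have h := hde
    unfold de at h
    rw [map_sub, map_mul, map_ofNat, hQm] at h
    exact sub_eq_zero.1 h
  have hQ2 : QQ ^ 2 = -4 := by
    have h := congrArg (Ideal.Quotient.mk I) E.rel'
    rw [map_pow, map_add, map_mul, map_one, hQm] at h
    have h3 : W ^ 2 = QQ * W + 1 := h
    have h4 : (2 * W) ^ 2 = QQ * (2 * (2 * W)) + 4 := by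
      calc (2 * W) ^ 2 = 4 * W ^ 2 := by ring
        _ = 4 * (QQ * W + 1) := by rw [h3]
        _ = QQ * (2 * (2 * W)) + 4 := by ring
    rw [hW2] at h4
    linear_combination -h4
  set c : k := (8 : k)⁻¹ with hc
  have h8 : (8 : k) ≠ 0 := by
    have : (8 : k) = 2 ^ 3 := by norm_num
    rw [this]
    exact pow_ne_zero 3 h2k
  set z : (S ⧸ I) ⊗[k] (S ⧸ I) := U ⊗ₜ[k] 1 - 1 ⊗ₜ[k] U with hz
  have hzq : z ^ q = z + (QQ ⊗ₜ[k] 1 - 1 ⊗ₜ[k] QQ) := z_pow hp.out hn U
  set e : (S ⧸ I) ⊗[k] (S ⧸ I) :=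
    (z ^ (q - 1) - 1) * (QQ ⊗ₜ[k] 1 + 1 ⊗ₜ[k] QQ) * ((c • QQ) ⊗ₜ[k] 1) with he
  have hze : z * e = 0 := by
    have h1 : z * (z ^ (q - 1) - 1) = QQ ⊗ₜ[k] 1 - 1 ⊗ₜ[k] QQ := by
      rw [mul_sub, pow_q_mul hq2, hzq, mul_one]
      ring
    have h3 : (QQ ⊗ₜ[k] (1 : S ⧸ I) - (1 : S ⧸ I) ⊗ₜ[k] QQ) *
        (QQ ⊗ₜ[k] (1 : S ⧸ I) + (1 : S ⧸ I) ⊗ₜ[k] QQ) = 0 := by
      have h4 : (QQ ⊗ₜ[k] (1 : S ⧸ I) - (1 : S ⧸ I) ⊗ₜ[k] QQ) *
          (QQ ⊗ₜ[k] (1 : S ⧸ I) + (1 : S ⧸ I) ⊗ₜ[k] QQ) =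
          (QQ ⊗ₜ[k] (1 : S ⧸ I)) ^ 2 - ((1 : S ⧸ I) ⊗ₜ[k] QQ) ^ 2 := by ring
      rw [h4, Algebra.TensorProduct.tmul_pow, Algebra.TensorProduct.tmul_pow, one_pow, hQ2]
      have h5 : (-4 : S ⧸ I) = algebraMap k (S ⧸ I) (-4) := by
        rw [map_neg, map_ofNat]
      rw [h5, Algebra.TensorProduct.tmul_one_eq_one_tmul, sub_self]
    rw [he, ← mul_assoc, ← mul_assoc, h1, h3, zero_mul]
  have hUc : U ∈ cS e := mem_cS_of e U hze
  have hQc : QQ ∈ cS e := (cS e).sub_mem ((cS e).pow_mem hUc q) hUc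
  have hWc : W ∈ cS e := by
    have h1 : W = (2 : k)⁻¹ • QQ := by
      rw [← hW2, two_mul, ← two_smul k W, smul_smul, inv_mul_cancel₀ h2k, one_smul]
    rw [h1]
    exact (cS e).smul_mem hQc _
  have hall : ∀ x : S ⧸ I, x ∈ cS e := by
    intro x
    have h1 := E.gen_quot I x
    have h3 : Algebra.adjoin k ({U, W} : Set (S ⧸ I)) ≤ cS e := by
      rw [Algebra.adjoin_le_iff]
      intro y hy
      rcases hy with rfl | hy
      · exact hUc
      · rw [Set.mem_singleton_iff.1 hy]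
        exact hWc
    exact h3 h1
  refine ⟨⟨e, fun x => hall x, ?_⟩⟩
  have hzm : Algebra.TensorProduct.lmul' k (S := S ⧸ I) z = 0 := by
    rw [hz, map_sub, Algebra.TensorProduct.lmul'_apply_tmul, Algebra.TensorProduct.lmul'_apply_tmul,
      mul_one, one_mul, sub_self]
  have h0 : (0 : S ⧸ I) ^ (q - 1) = 0 := zero_pow (by omega)
  rw [he, map_mul, map_mul, map_sub, map_pow, hzm, h0, map_one, map_add,
    Algebra.TensorProduct.lmul'_apply_tmul, Algebra.TensorProduct.lmul'_apply_tmul,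
    Algebra.TensorProduct.lmul'_apply_tmul, mul_one, one_mul, mul_one]
  have h3 : (0 - 1 : S ⧸ I) * (QQ + QQ) * (c • QQ) = c • (-2 * QQ ^ 2) := by
    rw [mul_smul_comm]
    congr 1
    ring
  rw [h3, hQ2]
  have h5 : (-2 * -4 : S ⧸ I) = algebraMap k (S ⧸ I) 8 := by
    rw [map_ofNat]
    norm_num
  rw [h5, Algebra.smul_def, ← map_mul, hc, inv_mul_cancel₀ h8, map_one]

/-- the quotient `T0 = S / (Q, w - 1)` -/
abbrev I0 : Ideal S := Ideal.span {E.Q, E.w - 1}

/-- (2) **characteristic two**: `T0` is separable -/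
theorem sep_two [CharP k 2] (n : ℕ) (hn : q = 2 ^ n) (hn0 : n ≠ 0) :
    Nonempty (MT.Sep k (S ⧸ Ideal.span {E.Q, E.w - 1})) := by
  have hq2 : 2 ≤ q := two_le Nat.prime_two hn hn0
  set I : Ideal S := Ideal.span {E.Q, E.w - 1} with hI
  set U : S ⧸ I := Ideal.Quotient.mk I E.u with hU
  set W : S ⧸ I := Ideal.Quotient.mk I E.w with hW
  have hQm : U ^ q - U = 0 := by
    have h : Ideal.Quotient.mk I E.Q = 0 :=
      Ideal.Quotient.eq_zero_iff_mem.2 (Ideal.subset_span (Or.inl rfl))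
    unfold Q at h
    rw [map_sub, map_pow] at h
    exact h
  have hW1 : W = 1 := by
    have h : Ideal.Quotient.mk I (E.w - 1) = 0 :=
      Ideal.Quotient.eq_zero_iff_mem.2 (Ideal.subset_span (Or.inr rfl))
    rw [map_sub, map_one] at h
    exact sub_eq_zero.1 h
  set z : (S ⧸ I) ⊗[k] (S ⧸ I) := U ⊗ₜ[k] 1 - 1 ⊗ₜ[k] U with hz
  have hzq : z ^ q = z := by
    have h := z_pow (k := k) Nat.prime_two hn U
    rw [hQm, TensorProduct.zero_tmul, TensorProduct.tmul_zero, sub_zero, add_zero] at h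
    exact h
  set e : (S ⧸ I) ⊗[k] (S ⧸ I) := 1 - z ^ (q - 1) with he
  have hze : z * e = 0 := by
    rw [he, mul_sub, mul_one, pow_q_mul hq2, hzq, sub_self]
  have hUc : U ∈ cS e := mem_cS_of e U hze
  have hall : ∀ x : S ⧸ I, x ∈ cS e := by
    intro x
    have h1 := E.gen_quot I x
    have h3 : Algebra.adjoin k ({U, W} : Set (S ⧸ I)) ≤ cS e := by
      rw [Algebra.adjoin_le_iff]
      intro y hy
      rcases hy with rfl | hy
      · exact hUc
      · rw [Set.mem_singleton_iff.1 hy, hW1]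
        exact (cS e).one_mem
    exact h3 h1
  refine ⟨⟨e, fun x => hall x, ?_⟩⟩
  have hzm : Algebra.TensorProduct.lmul' k (S := S ⧸ I) z = 0 := by
    rw [hz, map_sub, Algebra.TensorProduct.lmul'_apply_tmul, Algebra.TensorProduct.lmul'_apply_tmul,
      mul_one, one_mul, sub_self]
  have h0 : (0 : S ⧸ I) ^ (q - 1) = 0 := zero_pow (by omega)
  rw [he, map_sub, map_pow, hzm, h0, map_one, sub_zero]

theorem two_zero [CharP k 2] (x : S) : 2 * x = 0 := by
  have h : (2 : S) = algebraMap k S 2 := by rw [map_ofNat]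
  have h1 : (2 : k) = 0 := by exact_mod_cast CharP.cast_eq_zero k 2
  rw [h, h1, map_zero, zero_mul]

/-- (3) `T0` is a direct factor of `S / s2` -/
theorem split_two [CharP k 2] :
    ∃ (iw : (S ⧸ Ideal.span {E.Q, E.w - 1}) →ₗ[S] (S ⧸ Ideal.span {E.s2}))
      (pw : (S ⧸ Ideal.span {E.s2}) →ₗ[S] (S ⧸ Ideal.span {E.Q, E.w - 1})), ∀ x, pw (iw x) = x := by
  have hs2 : E.s2 = (E.w - 1) + E.Q * E.u := rfl
  have hle : Ideal.span {E.s2} ≤ Ideal.span {E.Q, E.w - 1} := by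
    rw [Ideal.span_singleton_le_iff_mem, hs2]
    exact Ideal.add_mem _ (Ideal.subset_span (Or.inr rfl))
      (Ideal.mul_mem_right _ _ (Ideal.subset_span (Or.inl rfl)))
  have hQf : E.Q * (E.Q * (E.u ^ 2 + E.u) + 1) ∈ Ideal.span {E.s2} := by
    rw [Ideal.mem_span_singleton]
    refine ⟨- (E.w + 1) + E.Q + E.Q * E.u, ?_⟩
    have h1 := two_zero (k := k) (E.Q * E.u)
    have h2 := two_zero (k := k) (E.Q ^ 2 * E.u)
    have h3 := two_zero (k := k) (E.Q ^ 2 * E.u ^ 2)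
    have h5 := two_zero (k := k) E.Q
    rw [hs2]
    have h4 := E.rel'
    linear_combination h4 + h5 + h1 + 0 * h2 + 0 * h3
  have hwf : (E.w - 1) * (E.Q * (E.u ^ 2 + E.u) + 1) ∈ Ideal.span {E.s2} := by
    have h1 : (E.w - 1) * (E.Q * (E.u ^ 2 + E.u) + 1) =
        E.s2 * (E.Q * (E.u ^ 2 + E.u) + 1) - E.u * (E.Q * (E.Q * (E.u ^ 2 + E.u) + 1)) := by
      rw [hs2]
      ring
    rw [h1]
    exact Ideal.sub_mem _ (Ideal.mul_mem_right _ _ (Ideal.subset_span rfl))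
      (Ideal.mul_mem_left _ _ hQf)
  have hfQ : (E.Q * (E.u ^ 2 + E.u) + 1) • Ideal.Quotient.mk (Ideal.span {E.s2}) E.Q = 0 := by
    rw [← Ideal.Quotient.mk_eq_mk, ← Submodule.Quotient.mk_smul, Submodule.Quotient.mk_eq_zero,
      smul_eq_mul, mul_comm]
    exact hQf
  set m : S →ₗ[S] (S ⧸ Ideal.span {E.s2}) :=
    (Submodule.mkQ (Ideal.span {E.s2})).comp (LinearMap.mulRight S (E.Q * (E.u ^ 2 + E.u) + 1))
    with hm
  have hmx : ∀ x, m x = Submodule.Quotient.mk (x * (E.Q * (E.u ^ 2 + E.u) + 1)) := fun _ => rfl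
  have hle2 : Ideal.span {E.Q, E.w - 1} ≤ LinearMap.ker m := by
    refine Submodule.span_le.2 ?_
    intro y hy
    rw [SetLike.mem_coe, LinearMap.mem_ker, hmx, Submodule.Quotient.mk_eq_zero]
    rcases hy with rfl | hy
    · exact hQf
    · rw [Set.mem_singleton_iff.1 hy]
      exact hwf
  refine ⟨Submodule.liftQ (Ideal.span {E.Q, E.w - 1}) m hle2,
    Submodule.liftQ (Ideal.span {E.s2}) (Submodule.mkQ (Ideal.span {E.Q, E.w - 1})) ?_, ?_⟩
  · intro y hy
    rw [LinearMap.mem_ker, Submodule.mkQ_apply, Submodule.Quotient.mk_eq_zero]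
    exact hle hy
  · intro x
    obtain ⟨s, rfl⟩ := Submodule.Quotient.mk_surjective (Ideal.span {E.Q, E.w - 1}) x
    rw [Submodule.liftQ_apply, hmx, Submodule.liftQ_apply, Submodule.mkQ_apply,
      Submodule.Quotient.eq]
    have h1 : s * (E.Q * (E.u ^ 2 + E.u) + 1) - s = E.Q * (s * (E.u ^ 2 + E.u)) := by ring
    rw [h1]
    exact Ideal.mul_mem_right _ _ (Ideal.subset_span (Or.inl rfl))

/-- (4) the quotient by `2 w - Q` is an extension of `T0` by `T0` -/
theorem ext_two [CharP k 2] :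
    ∃ (i : (S ⧸ Ideal.span {E.Q, E.w - 1}) →ₗ[S] (S ⧸ Ideal.span {E.de}))
      (r : (S ⧸ Ideal.span {E.de}) →ₗ[S] (S ⧸ Ideal.span {E.Q, E.w - 1})),
      Function.Injective i ∧ Function.Exact i r ∧ Function.Surjective r := by
  have hde : E.de = - E.Q := by
    unfold de
    rw [two_zero (k := k), zero_sub]
  have hspan : Ideal.span {E.de} = Ideal.span {E.Q} := by
    rw [hde, Ideal.span_singleton_neg]
  have hQ0 : ∀ z, E.Q * z = 0 → z = 0 := by
    intro z hz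
    refine E.inj' z ?_
    rw [hde, neg_mul, hz, neg_zero]
  have hw1 : (E.w - 1) * (E.w - 1) = E.Q * E.w := by
    have h1 := two_zero (k := k) E.w
    have h2 := two_zero (k := k) (1 : S)
    have h4 := E.rel'
    linear_combination h4 - h1 + h2
  set m : S →ₗ[S] (S ⧸ Ideal.span {E.de}) :=
    (Submodule.mkQ (Ideal.span {E.de})).comp (LinearMap.mulRight S (E.w - 1)) with hm
  have hmx : ∀ x, m x = Submodule.Quotient.mk (x * (E.w - 1)) := fun _ => rfl
  have hle2 : Ideal.span {E.Q, E.w - 1} ≤ LinearMap.ker m := by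
    refine Submodule.span_le.2 ?_
    intro y hy
    rw [SetLike.mem_coe, LinearMap.mem_ker, hmx, Submodule.Quotient.mk_eq_zero, hspan]
    rcases hy with rfl | hy
    · exact Ideal.mul_mem_right _ _ (Ideal.subset_span rfl)
    · rw [Set.mem_singleton_iff.1 hy, hw1]
      exact Ideal.mul_mem_right _ _ (Ideal.subset_span rfl)
  have hle : Ideal.span {E.de} ≤ Ideal.span {E.Q, E.w - 1} := by
    rw [hspan, Ideal.span_singleton_le_iff_mem]
    exact Ideal.subset_span (Or.inl rfl)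
  refine ⟨Submodule.liftQ (Ideal.span {E.Q, E.w - 1}) m hle2,
    Submodule.liftQ (Ideal.span {E.de}) (Submodule.mkQ (Ideal.span {E.Q, E.w - 1})) ?_, ?_, ?_, ?_⟩
  · intro y hy
    rw [LinearMap.mem_ker, Submodule.mkQ_apply, Submodule.Quotient.mk_eq_zero]
    exact hle hy
  · rw [injective_iff_map_eq_zero]
    intro x hx
    obtain ⟨s, rfl⟩ := Submodule.Quotient.mk_surjective (Ideal.span {E.Q, E.w - 1}) x
    rw [Submodule.liftQ_apply, hmx, Submodule.Quotient.mk_eq_zero, hspan,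
      Ideal.mem_span_singleton] at hx
    obtain ⟨y, hy⟩ := hx
    rw [Submodule.Quotient.mk_eq_zero]
    have h1 : E.Q * (s * E.w - y * (E.w - 1)) = 0 := by
      linear_combination (E.w - 1) * hy - s * hw1
    have h2 := sub_eq_zero.1 (hQ0 _ h1)
    have h3 : s = y * (E.w - E.Q) * (E.w - 1) := by
      have h4 := E.rel'
      have h5 : s = (s * E.w) * (E.w - E.Q) - s * (E.w ^ 2 - (E.Q * E.w + 1)) := by ring
      rw [h5, h4, h2]
      ring
    rw [h3]
    exact Ideal.mul_mem_left _ _ (Ideal.subset_span (Or.inr rfl))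
  · intro x
    obtain ⟨s, rfl⟩ := Submodule.Quotient.mk_surjective (Ideal.span {E.de}) x
    rw [Submodule.liftQ_apply, Submodule.mkQ_apply, Submodule.Quotient.mk_eq_zero]
    constructor
    · intro hs
      rw [Ideal.mem_span_pair] at hs
      obtain ⟨a, b, hab⟩ := hs
      refine ⟨Submodule.Quotient.mk b, ?_⟩
      rw [Submodule.liftQ_apply, hmx, Submodule.Quotient.eq, hspan, ← hab]
      have h1 : b * (E.w - 1) - (a * E.Q + b * (E.w - 1)) = E.Q * (-a) := by ring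
      rw [h1]
      exact Ideal.mul_mem_right _ _ (Ideal.subset_span rfl)
    · rintro ⟨y, hy⟩
      obtain ⟨t, rfl⟩ := Submodule.Quotient.mk_surjective (Ideal.span {E.Q, E.w - 1}) y
      rw [Submodule.liftQ_apply, hmx, Submodule.Quotient.eq] at hy
      have h1 : s = t * (E.w - 1) - (t * (E.w - 1) - s) := by ring
      rw [h1]
      exact Ideal.sub_mem _ (Ideal.mul_mem_left _ _ (Ideal.subset_span (Or.inr rfl))) (hle hy)
  · intro x
    obtain ⟨s, rfl⟩ := Submodule.Quotient.mk_surjective (Ideal.span {E.Q, E.w - 1}) x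
    exact ⟨Submodule.Quotient.mk s, rfl⟩

end XR

end H82.EE
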